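import Pool.Agent.L0h56.HS.Birigid
import Pool.Agent.L0h60.HS.DSM
import Pool.Agent.L0h41.HS.EQO

set_option autoImplicit false

/-! # MP_d26ff6_al: quaternionic structures all of whose value groups have the same order

Let `S = (G, -1, q)` be a finite quaternionic structure and `V(a) = {b : q(a,b) = 0}`. If all `V(a)`,
for `a` neither in the radical (`V(a) = G`) nor birigid (`V(a) = {1,-a}`, `V(-a) = {1,a}`, `a ≠ 1, -1`),
have the same order then `S` is of elementary type. For `-1 = 1`: if the orders `|V(a)|` take no values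
except `1`, `2`, `N`, `|G|` then `S` is of elementary type. If all `V(a)`, `a ≠ 1`, have the same order
`N` then moreover `N ≤ 2` or `|G| ≤ 2 N`. In particular `S` is of elementary type if the automorphisms
of `G` which preserve orthogonality (`q(x,y) = 0`) are transitive on the elements which are neither in
the radical nor birigid.

Proof. A birigid element gives a group extension (theorem of the starting files), and a radical element
splits off a factor of order two. So let there be neither birigid nor nontrivial radical elements: all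
`V(a)`, `a ≠ 1`, have order `N`. Put `Q_a = {q(a,x)}`, of size `M = |G| / N`. By linkage `Q_a ∩ Q_c` is in bijection with
`V(ac) / (V(a) ∩ V(c))`.

(1) `|G| ≤ N ^ 2` implies `|G| ≤ 2 N` (so `S` is of elementary type by a theorem of the starting files):
`Q_a = Q_c` if and only if `V(a) V(c) = G`, and then `Q_{ac} = Q_a`. So the sets `{c : Q_c = Q_a} ∪ {1}`
are subgroups, any two of which are equal or meet in `1`. The sum of the indices of all `V(a) V(c)`, for
fixed `a`, shows that they have more than `√|G|` elements, so there is only one of them, and then the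
same sum gives `(M - 1) (M - 2) = 0`.

(2) `N ≥ 4` implies `|G| ≤ N ^ 2`. Suppose `|G| > N ^ 2`. For `t ≠ 0` let `D(t)` be the set of the `x` with
`t ∈ Q_x`, of size `d(t)`. For `x ∈ D(t)` the sum of `|V(x) ∩ V(y)|` over `y ∈ D(t)` is `N ^ 2`, hence
`d(t) = N ^ 2 - N + 1 - e(t)` with `e(t) ≥ 0`. The sum over all `t` in `Q_a` gives
`2 (|G| - N) e ≤ N (N - 1) (N - 2) ^ 2` for the smallest value `e` of `e(t)`. The elements `y` which are
orthogonal to some element of `D(t)` form a subgroup (linkage, twice), of order `u` say. For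
`m(y) = |V(y) ∩ D(t)|` the sum of `m(y)` is `d N`, the sum of `m(y) ^ 2` is `d N ^ 2`, and `m(1) = d`. So
`u < N ^ 3`, hence `u ≤ N ^ 3 / 2` (these are powers of two), and `2 [m ≥ 1] ≥ 3 m - m ^ 2` gives
`N (N - 2) ^ 2 + e ^ 2 ≤ (N ^ 2 + N - 1) e`, hence `2 |G| < N ^ 3`, so `4 u ≤ 4 |G| ≤ N ^ 3`. The
Cauchy-Schwarz inequality gives `d (N - 1) ^ 2 ≤ (u - 1) (N - 1 + e)`. Together with `|G| ≥ 2 N ^ 2` these
inequalities are contradictory. -/

namespace Pool.Agent.Results.MP_d26ff6_al.EqualOrders

open Pool.Agent.H315R3.ETC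

/-- the order of the value group `V(a) = {b : q(a,b) = 0}` -/
noncomputable def vsize (S : QData) (a : S.G) : ℕ := {b : S.G | S.q a b = S.zero}.ncard

/-- `a` is in the radical: `V(a) = G` -/
def Radical (S : QData) (a : S.G) : Prop := ∀ b : S.G, S.q a b = S.zero

/-- `a` is birigid: `a ≠ 1, -1`, `V(a) = {1, -a}` and `V(-a) = {1, a}` -/
def Birigid (S : QData) (a : S.G) : Prop :=
  a ≠ 1 ∧ a ≠ S.neg ∧ (∀ b : S.G, S.q a b = S.zero → b = 1 ∨ b = S.neg * a) ∧
    ∀ b : S.G, S.q (S.neg * a) b = S.zero → b = 1 ∨ b = a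

theorem result (S : QData) (hS : IsQuat S) (hfin : Finite S.G) :
    -- (1) if the value groups of all elements which are neither in the radical nor birigid have the
    -- same order `N`
    (∀ N : ℕ, (∀ a : S.G, Radical S a ∨ vsize S a = N ∨ Birigid S a) → Elem S) ∧
    -- (2) if `-1 = 1` and the orders of the value groups take no values except `1`, `2`, `N`, `|G|`
    (S.neg = 1 → ∀ N : ℕ, (∀ a : S.G, Radical S a ∨ vsize S a = N ∨ vsize S a ≤ 2) → Elem S) ∧
    -- (3) if all `V(a)`, `a ≠ 1`, have the same order `N`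
    (∀ N : ℕ, (∀ a : S.G, a ≠ 1 → vsize S a = N) →
      Elem S ∧ (N ≤ 2 ∨ Nat.card S.G ≤ 2 * N)) ∧
    -- (4) if the automorphisms of `G` which preserve orthogonality are transitive on the elements
    -- which are neither in the radical nor birigid
    ((∀ a b : S.G, ¬ (Radical S a ∨ Birigid S a) → ¬ (Radical S b ∨ Birigid S b) →
      ∃ α : MulAut S.G, (∀ x y : S.G, S.q x y = S.zero → S.q (α x) (α y) = S.zero) ∧ α a = b) →
      Elem S) := by
  have hE := Pool.Agent.L0h41.HS.t_EQO
  have hD := Pool.Agent.L0h60.HS.t_DSM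
  have h1 : ∀ N : ℕ, (∀ a : S.G, Radical S a ∨ vsize S a = N ∨ Birigid S a) → Elem S := by
    intro N hN
    refine Pool.Agent.L0h56.HS.part11 hE hD _ S hS hfin le_rfl N fun a => ?_
    rcases hN a with h | h | ⟨b1, b2, b3, b4⟩
    · exact Or.inl h
    · exact Or.inr (Or.inl h)
    · refine Or.inr (Or.inr ⟨b1, b2, b3, fun e he => ?_⟩)
      rw [← mul_assoc, hS.exp2, one_mul]
      exact b4 e he
  refine ⟨h1, fun hn N hN => Pool.Agent.L0h56.HS.part12 hE hD S hS hfin hn N hN,
    fun N hN => Pool.Agent.L0h56.HS.part8 hE hD S hS hfin N hN, fun ht => ?_⟩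
  obtain ⟨N, hN⟩ := Pool.Agent.L0h56.HS.part13 S hfin (fun a => ¬ (Radical S a ∨ Birigid S a)) ht
  refine h1 N fun a => ?_
  by_cases ha : Radical S a ∨ Birigid S a
  · rcases ha with ha | ha
    · exact Or.inl ha
    · exact Or.inr (Or.inr ha)
  · exact Or.inr (Or.inl (hN a ha))

end Pool.Agent.Results.MP_d26ff6_al.EqualOrders
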