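import Pool.Agent.L0h20.QS.Main

set_option autoImplicit false

/-!
# MP_d26ff6_al: quaternionic structures with a field of scalars

Let `S = (G, -1, q)` be a finite quaternionic structure, `V(a) = {b : q(a,b) = 0}`, and let `Γ` be a
commutative group of automorphisms of `S` (it suffices: of automorphisms of the group `G` which
preserve the relation `q(a,b) = 0`) such that `F = Γ ∪ {0}` is closed under sums; so `F` is a
finite field and `G` is a vector space over `F`.

(1) The intersection of each value group `V(a)` with each line `F b` is trivial or, for a suitable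
    choice of `b` on the line, equal to `K b` with a subfield `K` of `F`.
(2) A value group `V(a) ≠ G` has index at least `√|F|` in `G`.
(3) If orthogonal elements are always proportional over `F` (and `Γ` fixes `-1`), then `S` is of
    elementary type: it has order one and `-1 ≠ 1`, or `-1 = 1` and there is a subgroup `N`, which is
    trivial or a line `F a`, such that different elements of `G \ {1}` are orthogonal if and only if
    both are in `N`.

Method. Symmetry of the relation `q(a,b) = 0` shows that `{λ ∈ F : q(a, λ b) = 0}` is closed under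
inversion if it contains `1`; by Hua's identity it is closed under `λ, μ ↦ λ² μ`, and as it is finite
and `F` has characteristic 2 it is a subfield. So orthogonality is transitive in (3), and the starting
file `IndependentSlots` applies. (For groups `Γ` which are transitive on `G \ {1}`, where `G` is a line
over `F`, see `EqualOrders`.)
-/

namespace Pool.Agent.Results.MP_d26ff6_al.FieldOfScalars

open Pool.Agent.H315R3.ETC

/-- `Γ` is a commutative group of automorphisms of the group `G` which preserve orthogonality (the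
relation `q(a,b) = 0`); for example a commutative group of automorphisms of the structure `S`. -/
structure IsCommutativeSymmetry (S : QData) (Γ : Subgroup (MulAut S.G)) : Prop where
  comm : ∀ σ ∈ Γ, ∀ τ ∈ Γ, σ * τ = τ * σ
  orth : ∀ σ ∈ Γ, ∀ a b : S.G, S.q a b = S.zero → S.q (σ a) (σ b) = S.zero

/-- The sum `g ↦ σ(g) τ(g)` of two different elements of `Γ` belongs to `Γ`: together with `0`
(the map with the value `1`) a commutative group `Γ` with this property is a field `F`, and `G` is
a vector space over it. -/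
def ClosedUnderSums {G : Type} [CommGroup G] (Γ : Subgroup (MulAut G)) : Prop :=
  ∀ σ ∈ Γ, ∀ τ ∈ Γ, σ ≠ τ → ∃ η ∈ Γ, ∀ x, η x = σ x * τ x

theorem result (S : QData) (hS : IsQuat S) (hfin : Finite S.G) (Γ : Subgroup (MulAut S.G))
    (hΓ : IsCommutativeSymmetry S Γ) :
    -- value groups meet lines in lines over subfields
    (ClosedUnderSums Γ → ∀ a b : S.G, S.q a b = S.zero → ∃ K : Subgroup (MulAut S.G),
      (∀ σ, σ ∈ K ↔ σ ∈ Γ ∧ S.q a (σ b) = S.zero) ∧ ClosedUnderSums K) ∧
    -- the index of a value group different from `G` is at least the square root of `|F|`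
    (ClosedUnderSums Γ → ∀ a : S.G, (∃ x, S.q a x ≠ S.zero) →
      (Nat.card Γ + 1) * {x : S.G | S.q a x = S.zero}.ncard ^ 2 ≤ Nat.card S.G ^ 2) ∧
    -- orthogonal elements are proportional
    (ClosedUnderSums Γ → (∀ σ ∈ Γ, σ S.neg = S.neg) →
      (∀ a b : S.G, a ≠ 1 → b ≠ 1 → S.q a b = S.zero → ∃ σ ∈ Γ, σ a = b) →
      Elem S ∧ ((S.neg ≠ 1 ∧ ∀ a : S.G, a = 1 ∨ a = S.neg) ∨
        (S.neg = 1 ∧ ∃ N : Subgroup S.G,
          (N = ⊥ ∨ ∃ a : S.G, a ≠ 1 ∧ ∀ x, x ∈ N ↔ x = 1 ∨ ∃ σ ∈ Γ, x = σ a) ∧
          ∀ a b : S.G, S.q a b = S.zero ↔ a = 1 ∨ b = 1 ∨ a = b ∨ (a ∈ N ∧ b ∈ N)))) := by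
  refine ⟨fun hA a b hab => ?_, fun hA a ha => ?_, fun hA hn hO => ?_⟩
  · refine ⟨{ carrier := {σ | σ ∈ Γ ∧ S.q a (σ b) = S.zero}
              one_mem' := ⟨Γ.one_mem, hab⟩
              mul_mem' := fun {σ τ} hσ hτ => ⟨Γ.mul_mem hσ.1 hτ.1,
                Pool.Agent.L0h20.QS.prod_closed hS hΓ.comm hA hΓ.orth hab hσ.1 hτ.1 hσ.2 hτ.2⟩
              inv_mem' := fun {σ} hσ => ⟨Γ.inv_mem hσ.1,
                Pool.Agent.L0h20.QS.inv_closed hS hA hΓ.orth hab hσ.1 hσ.2⟩ }, fun σ => Iff.rfl, ?_⟩
    rintro σ ⟨hσ, h1⟩ τ ⟨hτ, h2⟩ hne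
    obtain ⟨η, hη, hx⟩ := hA σ hσ τ hτ hne
    refine ⟨η, ⟨hη, ?_⟩, hx⟩
    rw [hx]
    exact Pool.Agent.L0h20.QS.q_mul hS h1 h2
  · obtain ⟨x, hx⟩ := ha
    have hV : Pool.Agent.L0h20.QS.Vg hS a ≠ ⊤ := by
      intro h
      have : x ∈ Pool.Agent.L0h20.QS.Vg hS a := by rw [h]; exact Subgroup.mem_top x
      exact hx this
    have h1 := Pool.Agent.L0h20.QS.index_ge hS hΓ.comm hA hΓ.orth a hV
    have h2 : {x : S.G | S.q a x = S.zero}.ncard = Nat.card (Pool.Agent.L0h20.QS.Vg hS a) :=
      (Nat.card_coe_set_eq _).symm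
    rw [h2, ← (Pool.Agent.L0h20.QS.Vg hS a).card_mul_index, mul_pow, mul_comm]
    exact Nat.mul_le_mul_left _ h1
  · exact Pool.Agent.L0h20.QS.classify hS hΓ.comm hA hΓ.orth hn hO

end Pool.Agent.Results.MP_d26ff6_al.FieldOfScalars
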