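import Pool.Agent.L0h68.IV.Fin

set_option autoImplicit false

/-! # MP_d26ff6_al: quaternionic structures with an isolated value group

Let `S = (G, -1, q)` be a finite quaternionic structure and `V(a) = {b : q(a,b) = 0}`. Call `V(a)`
isolated if `V(b) = V(a)` for all `b ∈ V(a)`, `b ≠ 1`. If some isolated value group `V(a)` has at least
four elements, then `V(y) = {1, -y}` for all `y ∉ V(a)`, and `S` is of elementary type.

Proof. Put `H = V(a)`; then `-1 ∈ H`. Let `y ∉ H`, and suppose that `V(y)` contains `v` with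
`v ≠ 1, -y`. (1) If `y, v, yv ∉ H`, `y ⊥ v`, `h y ⊥ k v` with `h, k ∈ H`, then `h = k = 1`: otherwise
`q(k,y) = q(h,v) ≠ 0`, and a common partner `x` gives `yx, vx ∈ H`. (2) If `h ∈ H`, `h ≠ 1`, then
`q(hv,y) = q(h,y) = q(cy,h)` for `c ∈ H`, and a common partner shows, for `c ≠ 1, -h`, that `V(hv)` has
more than two elements (here `|H| ≥ 4` is used); so `|V(hy)| ≥ 4` for all `h ∈ H`. (3) The elements
orthogonal to a slot of `t = q(h,y)` form a group `P`, and it is the union of the products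
`H V(cy)`, `c ∈ H`. By (1) its elements outside `H ∪ Hy` are uniquely `z w`, `z ∈ H`, `w ∈ V(cy)`,
`w ≠ 1, -cy`, `c ∈ H`. Hence `|P| = 2 |H| + |H| ∑_c (|V(cy)| - 2) = 2 |H| (1 + 2 T)` with `T ≥ 1`, which
is not a power of two. For the elementary type the value group criterion of the starting file
`ValueGroupCriterion` is used. -/

namespace Pool.Agent.Results.MP_d26ff6_al.IsolatedValueGroups

open Pool.Agent.H315R3.ETC

/-- If `V(a)` has at least four elements and `V(b) = V(a)` for all `b ∈ V(a)` different from `1`, then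
`V(y) = {1, -y}` for all `y` outside `V(a)`, and `S` is of elementary type. -/
theorem result (S : QData) (hS : IsQuat S) (hfin : Finite S.G) (a : S.G)
    (h4 : 4 ≤ {b : S.G | S.q a b = S.zero}.ncard)
    (hV : ∀ b : S.G, b ≠ 1 → S.q a b = S.zero →
      ∀ c : S.G, S.q b c = S.zero ↔ S.q a c = S.zero) :
    (∀ y : S.G, S.q a y ≠ S.zero → {w : S.G | S.q y w = S.zero} = {1, S.neg * y}) ∧ Elem S := by
  have hK : ∀ x ∈ Pool.Agent.L0h68.IV.VG hS a, x ≠ 1 → ∀ y, S.q x y = S.zero ↔
      y ∈ Pool.Agent.L0h68.IV.VG hS a := fun x hx hx1 y => hV x hx1 hx y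
  have h4' : 4 ≤ Nat.card (Pool.Agent.L0h68.IV.VG hS a) := h4
  refine ⟨fun y hy => ?_, Pool.Agent.L0h68.IV.elem_of_isolated hS _ hK h4'⟩
  ext w
  constructor
  · intro hw
    exact Pool.Agent.L0h68.IV.rigid hS _ hK h4' hy w hw
  · rintro (rfl | rfl)
    · exact Pool.Agent.L0h68.IV.o_one hS y
    · exact hS.qs1 y

end Pool.Agent.Results.MP_d26ff6_al.IsolatedValueGroups
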